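import Pool.Agent.Q251.TC.Kon
import Pool.Agent.Q251.LA.Sel

/-!
# Detachment of edge colourings of multiple graphs into proper edge colourings of blow-ups
-/

set_option autoImplicit false

namespace Pool.Agent.Q251.TC

open Finset SimpleGraph

section

variable {V L D : Type} [Fintype V] [Fintype L] [Fintype D] {G : SimpleGraph V} {m : ℕ}
  {ι : D → D} {b : D → V} {col : D → L}

open Classical in
/-- The fibres over the vertices of `P` are split. -/
structure Sp (G : SimpleGraph V) (m : ℕ) (ι : D → D) (b : D → V) (col : D → L) (P : Finset V)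
    (κ : D → Fin m) : Prop where
  inj : ∀ d d', b d ∈ P → b d' = b d → κ d' = κ d → col d' = col d → d' = d
  both : ∀ u v, u ∈ P → v ∈ P → G.Adj u v → ∀ i j,
    (univ.filter (fun d => b d = u ∧ b (ι d) = v ∧ κ d = i ∧ κ (ι d) = j)).card = 1
  one : ∀ u v, u ∈ P → v ∉ P → G.Adj u v → ∀ i,
    (univ.filter (fun d => b d = u ∧ b (ι d) = v ∧ κ d = i)).card = m

open Classical in
theorem split (hι : ∀ d, ι (ι d) = d) (hG : ∀ d, G.Adj (b d) (b (ι d)))
    (hcnt : ∀ u v, G.Adj u v → (univ.filter (fun d => b d = u ∧ b (ι d) = v)).card = m * m)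
    (hdeg : ∀ u c, (univ.filter (fun d => b d = u ∧ col d = c)).card ≤ m)
    (P : Finset V) (κ : D → Fin m) (h : Sp G m ι b col P κ) (u : V) (hu : u ∉ P) (hm : 0 < m) :
    ∃ κ' : D → Fin m, Sp G m ι b col (insert u P) κ' := by
  -- the places of the other ends
  let z : Fin m := ⟨0, hm⟩
  let pl : D → V × Fin m := fun d => if b (ι d) ∈ P then (b (ι d), κ (ι d)) else (b (ι d), z)
  let n : V × Fin m → ℕ := fun w => if G.Adj u w.1 then (if w.1 ∈ P then 1 else
    if w.2 = z then m else 0) else 0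
  let S : Finset D := univ.filter (fun d => b d = u)
  have hS : ∀ d, d ∈ S ↔ b d = u := by
    intro d
    simp [S]
  have hpl1 : ∀ d, (pl d).1 = b (ι d) := by
    intro d
    simp only [pl]
    split_ifs <;> rfl
  have hpl2 : ∀ d, b (ι d) ∈ P → pl d = (b (ι d), κ (ι d)) := fun d hd => if_pos hd
  have hpl3 : ∀ d, b (ι d) ∉ P → pl d = (b (ι d), z) := fun d hd => if_neg hd
  have h1 : ∀ w, (S.filter (fun d => pl d = w)).card = m * n w := by
    intro w
    by_cases hw : G.Adj u w.1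
    swap
    · have h2 : n w = 0 := if_neg hw
      rw [h2, mul_zero, card_eq_zero, filter_eq_empty_iff]
      intro d hd h3
      refine hw ?_
      rw [← h3, hpl1, ← (hS d).1 hd]
      exact hG d
    by_cases hwP : w.1 ∈ P
    · have h2 : n w = 1 := by
        simp only [n]
        rw [if_pos hw, if_pos hwP]
      rw [h2, mul_one]
      refine Eq.trans ?_ (h.one w.1 u hwP hu hw.symm w.2)
      refine card_bij (fun d _ => ι d) ?_ ?_ ?_
      · intro d hd
        obtain ⟨h3, h4⟩ := mem_filter.1 hd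
        have h5 : b (ι d) = w.1 := by rw [← hpl1, h4]
        rw [hpl2 d (h5 ▸ hwP)] at h4
        refine mem_filter.2 ⟨mem_univ _, h5, ?_, ?_⟩
        · rw [hι]
          exact (hS d).1 h3
        · exact congrArg Prod.snd h4
      · intro d _ d' _ h3
        rw [← hι d, ← hι d', h3]
      · intro d hd
        obtain ⟨-, h3, h4, h5⟩ := mem_filter.1 hd
        have h6 : b (ι (ι d)) = w.1 := by rw [hι]; exact h3
        refine ⟨ι d, mem_filter.2 ⟨(hS _).2 h4, ?_⟩, hι d⟩
        rw [hpl2 _ (by rw [h6]; exact hwP), h6, hι, h5]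
    · by_cases hwz : w.2 = z
      · have h2 : n w = m := by
          simp only [n]
          rw [if_pos hw, if_neg hwP, if_pos hwz]
        rw [h2]
        refine Eq.trans (congrArg card ?_) (hcnt u w.1 hw)
        ext d
        constructor
        · intro hd
          obtain ⟨h3, h4⟩ := mem_filter.1 hd
          exact mem_filter.2 ⟨mem_univ _, (hS d).1 h3, by rw [← hpl1, h4]⟩
        · intro hd
          obtain ⟨-, h3, h4⟩ := mem_filter.1 hd
          refine mem_filter.2 ⟨(hS d).2 h3, ?_⟩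
          rw [hpl3 d (by rw [h4]; exact hwP), h4, ← hwz]
      · have h2 : n w = 0 := by
          simp only [n]
          rw [if_pos hw, if_neg hwP, if_neg hwz]
        rw [h2, mul_zero, card_eq_zero, filter_eq_empty_iff]
        intro d _ h3
        have h4 : b (ι d) = w.1 := by rw [← hpl1, h3]
        rw [hpl3 d (by rw [h4]; exact hwP)] at h3
        exact hwz (by rw [← h3])
  obtain ⟨s, hs1, hs2⟩ := Pool.Agent.Q251.LA.slots S pl m n h1
  -- Koenig
  have hsm : ∀ d, d ∈ S → s d < m := by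
    intro d hd
    refine lt_of_lt_of_le (hs1 d hd) ?_
    simp only [n]
    split_ifs <;> omega
  let g : {d // d ∈ S} → (V × Fin m) × Fin m := fun d => (pl d.1, ⟨s d.1, hsm d.1 d.2⟩)
  have hgm : ∀ x, (univ.filter (fun d => g d = x)).card ≤ m := by
    rintro ⟨w, j⟩
    by_cases hj : (j : ℕ) < n w
    · refine le_trans (card_le_card_of_injOn (fun d : {d // d ∈ S} => d.1)
        (t := S.filter (fun d => pl d = w ∧ s d = j)) ?_ ?_) (le_of_eq (hs2 w j hj))
      · intro d hd
        rw [mem_coe, mem_filter] at hd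
        have h3 := Prod.ext_iff.1 hd.2
        exact mem_coe.2 (mem_filter.2 ⟨d.2, h3.1, congrArg Fin.val h3.2⟩)
      · intro d _ d' _ h3
        exact Subtype.ext h3
    · refine le_trans (le_of_eq ?_) (Nat.zero_le m)
      rw [card_eq_zero, filter_eq_empty_iff]
      intro d _ h3
      have h4 := Prod.ext_iff.1 h3
      have h5 : s d.1 = j := congrArg Fin.val h4.2
      have h6 := hs1 d.1 d.2
      have h7 : pl d.1 = w := h4.1
      rw [h7, h5] at h6
      exact hj h6
  obtain ⟨κ0, hκ0⟩ := kon (fun d : {d // d ∈ S} => col d.1) g m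
    (by
      intro c
      refine le_trans (card_le_card_of_injOn (fun d : {d // d ∈ S} => d.1)
        (t := univ.filter (fun d => b d = u ∧ col d = c)) ?_ ?_) (hdeg u c)
      · intro d hd
        rw [mem_coe, mem_filter] at hd
        exact mem_coe.2 (mem_filter.2 ⟨mem_univ _, (hS _).1 d.2, hd.2⟩)
      · intro d _ d' _ h3
        exact Subtype.ext h3)
    (fun x => by convert hgm x)
  let κu : D → Fin m := fun d => if hd : d ∈ S then κ0 ⟨d, hd⟩ else z
  have hκu : ∀ d (hd : d ∈ S), κu d = κ0 ⟨d, hd⟩ := fun d hd => dif_pos hd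
  -- every part meets every slot once
  have hslot : ∀ w j i, j < n w →
      (S.filter (fun d => (pl d = w ∧ s d = j) ∧ κu d = i)).card = 1 := by
    intro w j i hj
    have h3 : ∀ i, (S.filter (fun d => (pl d = w ∧ s d = j) ∧ κu d = i)).card ≤ 1 := by
      intro i
      rw [card_le_one]
      intro d hd d' hd'
      obtain ⟨h4, ⟨h5, h6⟩, h7⟩ := mem_filter.1 hd
      obtain ⟨h8, ⟨h9, h10⟩, h11⟩ := mem_filter.1 hd'
      by_contra hne
      refine hκ0 ⟨d, h4⟩ ⟨d', h8⟩ (fun h => hne (congrArg Subtype.val h)) (Or.inr ?_) ?_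
      · refine Prod.ext (h5.trans h9.symm) (Fin.ext ?_)
        exact h6.trans h10.symm
      · rw [← hκu d h4, ← hκu d' h8, h7, h11]
    by_contra hne
    have h4 : (S.filter (fun d => (pl d = w ∧ s d = j) ∧ κu d = i)).card < 1 :=
      lt_of_le_of_ne (h3 i) hne
    have h5 : ∑ i : Fin m, (S.filter (fun d => (pl d = w ∧ s d = j) ∧ κu d = i)).card <
        ∑ _i : Fin m, 1 := sum_lt_sum (fun i _ => h3 i) ⟨i, mem_univ _, h4⟩
    have h6 := hs2 w j hj
    rw [card_eq_sum_card_fiberwise (f := κu) (t := (univ : Finset (Fin m)))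
      (fun _ _ => mem_coe.2 (mem_univ _))] at h6
    have h7 : ∀ i ∈ (univ : Finset (Fin m)),
        ((S.filter (fun d => pl d = w ∧ s d = j)).filter (fun d => κu d = i)).card =
        (S.filter (fun d => (pl d = w ∧ s d = j) ∧ κu d = i)).card := by
      intro i _
      rw [filter_filter]
    rw [sum_congr rfl h7] at h6
    rw [h6, sum_const, card_univ, Fintype.card_fin, smul_eq_mul, mul_one] at h5
    exact lt_irrefl _ h5
  have hpart : ∀ w i, (S.filter (fun d => pl d = w ∧ κu d = i)).card = n w := by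
    intro w i
    have h3 : (S.filter (fun d => pl d = w ∧ κu d = i)).card =
        ∑ j ∈ range (n w), (S.filter (fun d => (pl d = w ∧ s d = j) ∧ κu d = i)).card := by
      rw [card_eq_sum_card_fiberwise (f := s) (t := range (n w))]
      · refine sum_congr rfl fun j _ => ?_
        rw [filter_filter]
        refine congrArg card (filter_congr fun d _ => ?_)
        constructor
        · rintro ⟨⟨h4, h5⟩, h6⟩
          exact ⟨⟨h4, h6⟩, h5⟩
        · rintro ⟨⟨h4, h6⟩, h5⟩
          exact ⟨⟨h4, h5⟩, h6⟩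
      · intro d hd
        rw [mem_coe, mem_filter] at hd
        rw [mem_coe, mem_range, ← hd.2.1]
        exact hs1 d hd.1
    rw [h3, sum_congr rfl (fun j hj => hslot w j i (mem_range.1 hj)), sum_const, card_range,
      smul_eq_mul, mul_one]
  let κ' : D → Fin m := fun d => if b d = u then κu d else κ d
  have hκ1 : ∀ d, b d = u → κ' d = κu d := fun d hd => if_pos hd
  have hκ2 : ∀ d, b d ≠ u → κ' d = κ d := fun d hd => if_neg hd
  -- counts at `u`
  have hcu1 : ∀ v, v ∈ P → G.Adj u v → ∀ i j,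
      (univ.filter (fun d => b d = u ∧ b (ι d) = v ∧ κ' d = i ∧ κ' (ι d) = j)).card = 1 := by
    intro v hv huv i j
    have hvu : v ≠ u := fun h3 => hu (h3 ▸ hv)
    have h3 : n (v, j) = 1 := by
      simp only [n]
      rw [if_pos huv, if_pos hv]
    rw [← h3, ← hpart (v, j) i]
    refine congrArg card ?_
    ext d
    constructor
    · intro hd
      obtain ⟨-, h4, h5, h6, h7⟩ := mem_filter.1 hd
      refine mem_filter.2 ⟨(hS d).2 h4, ?_, ?_⟩
      · rw [hpl2 d (h5 ▸ hv), h5, ← h7, hκ2 (ι d) (by rw [h5]; exact hvu)]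
      · rw [← hκ1 d h4, h6]
    · intro hd
      obtain ⟨h4, h5, h6⟩ := mem_filter.1 hd
      have h7 := (hS d).1 h4
      have h8 : b (ι d) = v := by rw [← hpl1, h5]
      rw [hpl2 d (h8 ▸ hv)] at h5
      refine mem_filter.2 ⟨mem_univ _, h7, h8, ?_, ?_⟩
      · rw [hκ1 d h7, h6]
      · rw [hκ2 (ι d) (by rw [h8]; exact hvu)]
        exact congrArg Prod.snd h5
  have hcu2 : ∀ v, v ∉ P → G.Adj u v → ∀ i,
      (univ.filter (fun d => b d = u ∧ b (ι d) = v ∧ κ' d = i)).card = m := by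
    intro v hv huv i
    have h3 : n (v, z) = m := by
      show (if G.Adj u v then (if v ∈ P then 1 else if z = z then m else 0) else 0) = m
      rw [if_pos huv, if_neg hv, if_pos rfl]
    refine Eq.trans (congrArg card ?_) ((hpart (v, z) i).trans h3)
    ext d
    constructor
    · intro hd
      obtain ⟨-, h4, h5, h6⟩ := mem_filter.1 hd
      refine mem_filter.2 ⟨(hS d).2 h4, ?_, ?_⟩
      · rw [hpl3 d (by rw [h5]; exact hv), h5]
      · rw [← hκ1 d h4, h6]
    · intro hd
      obtain ⟨h4, h5, h6⟩ := mem_filter.1 hd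
      have h7 := (hS d).1 h4
      have h8 : b (ι d) = v := by rw [← hpl1, h5]
      exact mem_filter.2 ⟨mem_univ _, h7, h8, by rw [hκ1 d h7, h6]⟩
  refine ⟨κ', ⟨?_, ?_, ?_⟩⟩
  · intro d d' hd h3 h4 h5
    by_cases h6 : b d = u
    · have h7 : b d' = u := h3.trans h6
      rw [hκ1 d h6, hκ1 d' h7, hκu d ((hS d).2 h6), hκu d' ((hS d').2 h7)] at h4
      by_contra hne
      exact hκ0 ⟨d', (hS d').2 h7⟩ ⟨d, (hS d).2 h6⟩ (fun h => hne (congrArg Subtype.val h))
        (Or.inl h5) h4
    · have h7 : b d' ≠ u := fun h8 => h6 (h3.symm.trans h8)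
      rw [hκ2 d h6, hκ2 d' h7] at h4
      exact h.inj d d' ((mem_insert.1 hd).resolve_left h6) h3 h4 h5
  · intro x y hx hy hxy i j
    by_cases hxu : x = u
    · rw [hxu] at hxy ⊢
      have hyu : y ≠ u := fun h3 => G.irrefl (h3 ▸ hxy)
      exact hcu1 y ((mem_insert.1 hy).resolve_left hyu) hxy i j
    by_cases hyu : y = u
    · rw [hyu] at hxy ⊢
      rw [← hcu1 x ((mem_insert.1 hx).resolve_left hxu) hxy.symm j i]
      refine card_bij (fun d _ => ι d) ?_ ?_ ?_
      · intro d hd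
        obtain ⟨-, h3, h4, h5, h6⟩ := mem_filter.1 hd
        exact mem_filter.2 ⟨mem_univ _, h4, by rw [hι]; exact h3, h6, by rw [hι]; exact h5⟩
      · intro d _ d' _ h3
        rw [← hι d, ← hι d', h3]
      · intro d hd
        obtain ⟨-, h3, h4, h5, h6⟩ := mem_filter.1 hd
        exact ⟨ι d, mem_filter.2 ⟨mem_univ _, h4, by rw [hι]; exact h3, h6, by
          rw [hι]; exact h5⟩, hι d⟩
    rw [← h.both x y ((mem_insert.1 hx).resolve_left hxu) ((mem_insert.1 hy).resolve_left hyu)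
      hxy i j]
    refine congrArg card (filter_congr fun d _ => ?_)
    constructor
    · rintro ⟨h3, h4, h5, h6⟩
      rw [hκ2 d (by rw [h3]; exact hxu)] at h5
      rw [hκ2 _ (by rw [h4]; exact hyu)] at h6
      exact ⟨h3, h4, h5, h6⟩
    · rintro ⟨h3, h4, h5, h6⟩
      rw [hκ2 d (by rw [h3]; exact hxu), hκ2 _ (by rw [h4]; exact hyu)]
      exact ⟨h3, h4, h5, h6⟩
  · intro x y hx hy hxy i
    have hyP : y ∉ P := fun h3 => hy (mem_insert_of_mem h3)
    have hyu : y ≠ u := fun h3 => hy (h3 ▸ mem_insert_self _ _)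
    by_cases hxu : x = u
    · rw [hxu] at hxy ⊢
      exact hcu2 y hyP hxy i
    refine Eq.trans (congrArg card (filter_congr fun d _ => ?_))
      (h.one x y ((mem_insert.1 hx).resolve_left hxu) hyP hxy i)
    constructor
    · rintro ⟨h3, h4, h5⟩
      rw [hκ2 d (by rw [h3]; exact hxu)] at h5
      exact ⟨h3, h4, h5⟩
    · rintro ⟨h3, h4, h5⟩
      rw [hκ2 d (by rw [h3]; exact hxu)]
      exact ⟨h3, h4, h5⟩

open Classical in
/-- **Detachment.** -/
theorem det [Nonempty L] (hι : ∀ d, ι (ι d) = d) (hG : ∀ d, G.Adj (b d) (b (ι d)))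
    (hc : ∀ d, col (ι d) = col d)
    (hcnt : ∀ u v, G.Adj u v → (univ.filter (fun d => b d = u ∧ b (ι d) = v)).card = m * m)
    (hdeg : ∀ u c, (univ.filter (fun d => b d = u ∧ col d = c)).card ≤ m) :
    ∃ ψ : V × Fin m → V × Fin m → L, (∀ x y, ψ x y = ψ y x) ∧
      (∀ x y z, G.Adj x.1 y.1 → G.Adj x.1 z.1 → y ≠ z → ψ x y ≠ ψ x z) ∧
      ∀ x y, G.Adj x.1 y.1 → ∃ d, b d = x.1 ∧ b (ι d) = y.1 ∧ col d = ψ x y := by
  rcases Nat.eq_zero_or_pos m with hm | hm
  · subst hm
    exact ⟨fun x _ => x.2.elim0, fun x _ => x.2.elim0, fun x _ _ => x.2.elim0,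
      fun x _ => x.2.elim0⟩
  have hall : ∀ P : Finset V, ∃ κ : D → Fin m, Sp G m ι b col P κ := by
    intro P
    induction P using Finset.induction_on with
    | empty =>
      exact ⟨fun _ => ⟨0, hm⟩, ⟨fun d _ hd => absurd hd (notMem_empty _),
        fun u _ hu => absurd hu (notMem_empty _), fun u _ hu => absurd hu (notMem_empty _)⟩⟩
    | insert u P hu ih =>
      obtain ⟨κ, h⟩ := ih
      exact split hι hG hcnt hdeg P κ h u hu hm
  obtain ⟨κ, h⟩ := hall univ
  have hex : ∀ x y : V × Fin m, G.Adj x.1 y.1 → ∃ d, (b d = x.1 ∧ b (ι d) = y.1 ∧ κ d = x.2 ∧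
      κ (ι d) = y.2) ∧ ∀ d', (b d' = x.1 ∧ b (ι d') = y.1 ∧ κ d' = x.2 ∧ κ (ι d') = y.2) →
      d' = d := by
    intro x y hxy
    obtain ⟨d, hd⟩ := card_eq_one.1 (h.both x.1 y.1 (mem_univ _) (mem_univ _) hxy x.2 y.2)
    have h1 : d ∈ univ.filter (fun d => b d = x.1 ∧ b (ι d) = y.1 ∧ κ d = x.2 ∧
        κ (ι d) = y.2) := by
      rw [hd]
      exact mem_singleton_self d
    refine ⟨d, (mem_filter.1 h1).2, fun d' h2 => ?_⟩
    have h3 : d' ∈ univ.filter (fun d => b d = x.1 ∧ b (ι d) = y.1 ∧ κ d = x.2 ∧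
        κ (ι d) = y.2) := mem_filter.2 ⟨mem_univ _, h2⟩
    rw [hd] at h3
    exact mem_singleton.1 h3
  let dt : ∀ x y : V × Fin m, G.Adj x.1 y.1 → D := fun x y hxy => Classical.choose (hex x y hxy)
  have hdt : ∀ x y (hxy : G.Adj x.1 y.1), b (dt x y hxy) = x.1 ∧ b (ι (dt x y hxy)) = y.1 ∧
      κ (dt x y hxy) = x.2 ∧ κ (ι (dt x y hxy)) = y.2 := fun x y hxy =>
    (Classical.choose_spec (hex x y hxy)).1
  have hdt2 : ∀ x y (hxy : G.Adj x.1 y.1) d', (b d' = x.1 ∧ b (ι d') = y.1 ∧ κ d' = x.2 ∧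
      κ (ι d') = y.2) → d' = dt x y hxy := fun x y hxy =>
    (Classical.choose_spec (hex x y hxy)).2
  let ψ : V × Fin m → V × Fin m → L := fun x y =>
    if hxy : G.Adj x.1 y.1 then col (dt x y hxy) else Classical.arbitrary L
  have hψ : ∀ x y (hxy : G.Adj x.1 y.1), ψ x y = col (dt x y hxy) := fun x y hxy => dif_pos hxy
  refine ⟨ψ, ?_, ?_, ?_⟩
  · intro x y
    by_cases hxy : G.Adj x.1 y.1
    · obtain ⟨h1, h2, h3, h4⟩ := hdt x y hxy
      rw [hψ x y hxy, hψ y x hxy.symm, ← hdt2 y x hxy.symm (ι (dt x y hxy))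
        ⟨h2, by rw [hι]; exact h1, h4, by rw [hι]; exact h3⟩, hc]
    · have h1 : ¬ G.Adj y.1 x.1 := fun h2 => hxy h2.symm
      show (if hxy : G.Adj x.1 y.1 then col (dt x y hxy) else Classical.arbitrary L) =
        if hxy : G.Adj y.1 x.1 then col (dt y x hxy) else Classical.arbitrary L
      rw [dif_neg hxy, dif_neg h1]
  · intro x y w hxy hxw hne h1
    obtain ⟨h2, h3, h4, h5⟩ := hdt x y hxy
    obtain ⟨h6, h7, h8, h9⟩ := hdt x w hxw
    rw [hψ x y hxy, hψ x w hxw] at h1
    have h10 := h.inj (dt x w hxw) (dt x y hxy) (mem_univ _) (h2.trans h6.symm)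
      (h4.trans h8.symm) h1
    rw [h10] at h3 h5
    exact hne (Prod.ext (h3.symm.trans h7) (h5.symm.trans h9))
  · intro x y hxy
    obtain ⟨h1, h2, -, -⟩ := hdt x y hxy
    exact ⟨dt x y hxy, h1, h2, (hψ x y hxy).symm⟩

end

end Pool.Agent.Q251.TC
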