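import Pool.Agent.Q251.TC.Tot

/-!
# `(p,1)`-total labellings of large even blow-ups
-/

set_option autoImplicit false

namespace Pool.Agent.Q251.TC

open Finset SimpleGraph

/-- The component of `v` is bipartite. -/
def Bip {V : Type} (G : SimpleGraph V) (v : V) : Prop :=
  ∃ φ : V → Bool, ∀ x y, G.Reachable v x → G.Adj x y → φ x ≠ φ y

theorem bip_reach {V : Type} {G : SimpleGraph V} {u v : V} (h : G.Reachable u v) (hb : Bip G u) :
    Bip G v := by
  obtain ⟨φ, hφ⟩ := hb
  exact ⟨φ, fun x y hx hxy => hφ x y (h.trans hx) hxy⟩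

theorem closed_reach {V : Type} {G : SimpleGraph V} {A : Set V}
    (hA : ∀ x ∈ A, ∀ y, G.Adj x y → y ∈ A) {u v : V} (h : G.Reachable u v) (hu : u ∈ A) : v ∈ A := by
  rw [SimpleGraph.reachable_iff_reflTransGen] at h
  induction h with
  | refl => exact hu
  | tail _ h2 ih => exact hA _ ih _ h2

/-- **A permutation along edges which avoids `v`**, if the component of `v` is not bipartite. -/
theorem avoid {V : Type} [Fintype V] {G : SimpleGraph V} {r : ℕ}
    (hreg : ∀ v, (G.neighborSet v).ncard = r) (v : V) (hv : ¬ Bip G v) :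
    ∃ τ : Equiv.Perm V, τ v = v ∧ ∀ u, u ≠ v → G.Adj u (τ u) := by
  classical
  have hr : 0 < r := by
    by_contra h
    have h0 : r = 0 := by omega
    refine hv ⟨fun _ => true, fun x y _ hxy => ?_⟩
    have h1 := hreg x
    rw [h0, Set.ncard_eq_zero (Set.toFinite _)] at h1
    have h2 : y ∈ G.neighborSet x := hxy
    rw [h1] at h2
    exact absurd h2 (Set.notMem_empty _)
  have hrow : ∀ x, ∑ w, (if G.Adj x w then 1 else 0) = r := by
    intro x
    rw [← card_filter, ← hreg x]
    have h5 : G.neighborSet x = ((univ.filter (fun u => G.Adj x u) : Finset V) : Set V) := by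
      ext u
      simp
    rw [h5, Set.ncard_coe_finset]
  let T : {u // u ≠ v} → Finset V := fun u => univ.filter (fun w => G.Adj u.1 w ∧ w ≠ v)
  have hHall : ∀ A : Finset {u // u ≠ v}, A.card ≤ (A.biUnion T).card := by
    intro A
    let S : Finset V := A.image Subtype.val
    have hSc : S.card = A.card := card_image_of_injective _ Subtype.val_injective
    have hvS : v ∉ S := by
      intro h
      obtain ⟨u, _, h1⟩ := mem_image.1 h
      exact u.2 h1
    let N : Finset V := univ.filter (fun w => ∃ u ∈ S, G.Adj u w)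
    have hN : ∀ u ∈ S, ∀ w, G.Adj u w → w ∈ N := fun u hu w huw =>
      mem_filter.2 ⟨mem_univ _, u, hu, huw⟩
    have hBU : A.biUnion T = N.erase v := by
      ext w
      rw [mem_biUnion, mem_erase]
      constructor
      · rintro ⟨u, hu, hw⟩
        obtain ⟨-, h1, h2⟩ := mem_filter.1 hw
        exact ⟨h2, hN u.1 (mem_image_of_mem _ hu) w h1⟩
      · rintro ⟨h1, h2⟩
        obtain ⟨-, u, hu, huw⟩ := mem_filter.1 h2
        obtain ⟨u', hu', rfl⟩ := mem_image.1 hu
        exact ⟨u', hu', mem_filter.2 ⟨mem_univ _, huw, h1⟩⟩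
    -- double counting
    have hS1 : ∀ u ∈ S, ∑ w ∈ N, (if G.Adj u w then 1 else 0) = r := by
      intro u hu
      rw [← hrow u]
      refine sum_subset (subset_univ _) ?_
      intro w _ hw
      exact if_neg (fun h => hw (hN u hu w h))
    have hN1 : ∀ w ∈ N, ∑ u ∈ S, (if G.Adj u w then 1 else 0) ≤ r := by
      intro w _
      rw [← hrow w]
      have h1 : ∀ u ∈ S, (if G.Adj u w then 1 else 0) = (if G.Adj w u then 1 else 0) := by
        intro u _
        by_cases h : G.Adj u w
        · rw [if_pos h, if_pos h.symm]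
        · rw [if_neg h, if_neg (fun h' => h h'.symm)]
      rw [sum_congr rfl h1]
      exact sum_le_sum_of_subset (subset_univ _)
    have hcount : r * S.card = ∑ w ∈ N, ∑ u ∈ S, (if G.Adj u w then 1 else 0) := by
      rw [sum_comm, sum_congr rfl hS1, sum_const, smul_eq_mul, mul_comm]
    have hle : S.card ≤ N.card := by
      have h1 : r * S.card ≤ r * N.card := by
        rw [hcount]
        refine (sum_le_sum hN1).trans (le_of_eq ?_)
        rw [sum_const, smul_eq_mul, mul_comm]
      exact Nat.le_of_mul_le_mul_left h1 hr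
    rw [← hSc, hBU]
    by_cases hvN : v ∈ N
    swap
    · rw [erase_eq_of_notMem hvN]
      exact hle
    rw [card_erase_of_mem hvN]
    rcases Nat.lt_or_ge S.card N.card with hlt | hge
    · omega
    exfalso
    have heq : S.card = N.card := le_antisymm hle hge
    have hN2 : ∀ w ∈ N, ∑ u ∈ S, (if G.Adj u w then 1 else 0) = r := by
      intro w hw
      have h1 : ∑ w ∈ N, ∑ u ∈ S, (if G.Adj u w then 1 else 0) = ∑ w ∈ N, r := by
        rw [← hcount, sum_const, smul_eq_mul, heq, mul_comm]
      exact (sum_eq_sum_iff_of_le hN1).1 h1 w hw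
    have hN3 : ∀ w ∈ N, ∀ u, G.Adj w u → u ∈ S := by
      intro w hw u hwu
      by_contra hu
      have h1 : ∑ u ∈ insert u S, (if G.Adj u w then 1 else 0) ≤ r := by
        rw [← hrow w]
        have h1 : ∀ x ∈ insert u S, (if G.Adj x w then 1 else 0) =
            (if G.Adj w x then 1 else 0) := by
          intro x _
          by_cases h : G.Adj x w
          · rw [if_pos h, if_pos h.symm]
          · rw [if_neg h, if_neg (fun h' => h h'.symm)]
        rw [sum_congr rfl h1]
        exact sum_le_sum_of_subset (subset_univ _)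
      rw [sum_insert hu, hN2 w hw, if_pos hwu.symm] at h1
      omega
    -- the component of `v` is bipartite
    have hA : ∀ x, G.Reachable v x → x ∈ S ∨ x ∈ N := by
      intro x hx
      refine closed_reach (A := {x | x ∈ S ∨ x ∈ N}) ?_ hx (Or.inr hvN)
      rintro y (hy | hy) w hyw
      · exact Or.inr (hN y hy w hyw)
      · exact Or.inl (hN3 y hy w hyw)
    have hB : ∀ x, G.Reachable v x → ¬ (x ∈ S ∧ x ∈ N) := by
      intro x hx h1
      have h2 : v ∈ {x | x ∈ S ∧ x ∈ N} := by
        refine closed_reach (A := {x | x ∈ S ∧ x ∈ N}) ?_ hx.symm h1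
        rintro y ⟨hy1, hy2⟩ w hyw
        exact ⟨hN3 y hy2 w hyw, hN y hy1 w hyw⟩
      exact hvS h2.1
    refine hv ⟨fun x => decide (x ∈ S), ?_⟩
    intro x y hx hxy h1
    have hy : G.Reachable v y := hx.trans hxy.reachable
    by_cases hxS : x ∈ S
    · have hyN := hN x hxS y hxy
      have hyS : y ∉ S := fun h => hB y hy ⟨h, hyN⟩
      simp [hxS, hyS] at h1
    · have hxN := (hA x hx).resolve_left hxS
      have hyS := hN3 x hxN y hxy
      simp [hxS, hyS] at h1
  obtain ⟨f, hf1, hf2⟩ := (Finset.all_card_le_biUnion_card_iff_exists_injective T).1 hHall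
  let F : V → V := fun u => if h : u = v then v else f ⟨u, h⟩
  have hFv : F v = v := dif_pos rfl
  have hF : ∀ u (h : u ≠ v), F u = f ⟨u, h⟩ := fun u h => dif_neg h
  have hfv : ∀ u (h : u ≠ v), G.Adj u (f ⟨u, h⟩) ∧ f ⟨u, h⟩ ≠ v := fun u h =>
    (mem_filter.1 (hf2 ⟨u, h⟩)).2
  have hinj : Function.Injective F := by
    intro x y hxy
    by_cases hx : x = v
    · by_cases hy : y = v
      · rw [hx, hy]
      · rw [hx, hFv, hF y hy] at hxy
        exact absurd hxy.symm (hfv y hy).2
    · by_cases hy : y = v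
      · rw [hy, hFv, hF x hx] at hxy
        exact absurd hxy (hfv x hx).2
      · rw [hF x hx, hF y hy] at hxy
        exact congrArg Subtype.val (hf1 hxy)
  refine ⟨Equiv.ofBijective F (Finite.injective_iff_bijective.1 hinj), ?_, ?_⟩
  · exact hFv
  · intro u hu
    show G.Adj u (F u)
    rw [hF u hu]
    exact (hfv u hu).1

/-- the distance of labels in different blocks -/
theorem block_dist {p i j s : ℕ} (hp : 1 ≤ p) (hs : s < 2 * p - 1) (hij : i ≠ j) :
    (p : ℤ) ≤ |(((2 * p - 1) * i + (p - 1) : ℕ) : ℤ) - (((2 * p - 1) * j + s : ℕ) : ℤ)| := by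
  obtain ⟨t, ht⟩ : ∃ t, t = 2 * p - 1 := ⟨_, rfl⟩
  rw [← ht] at hs ⊢
  rcases lt_or_gt_of_ne hij with h | h
  · have h1 : t * (i + 1) ≤ t * j := Nat.mul_le_mul_left t h
    rw [mul_add, mul_one] at h1
    rw [abs_sub_comm]
    refine le_trans ?_ (le_abs_self _)
    push_cast
    have h2 : ((t * i + t : ℕ) : ℤ) ≤ ((t * j : ℕ) : ℤ) := by exact_mod_cast h1
    push_cast at h2
    omega
  · have h1 : t * (j + 1) ≤ t * i := Nat.mul_le_mul_left t h
    rw [mul_add, mul_one] at h1
    refine le_trans ?_ (le_abs_self _)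
    push_cast
    have h2 : ((t * j + t : ℕ) : ℤ) ≤ ((t * i : ℕ) : ℤ) := by exact_mod_cast h1
    push_cast at h2
    omega

/-- **Havet-Yu for large even blow-ups of regular graphs.** -/
theorem hy_reg {V : Type} [Finite V] {G : SimpleGraph V} {r p m : ℕ} (hr : 0 < r) (hp : 1 ≤ p)
    (hreg : ∀ v, (G.neighborSet v).ncard = r) (hm : (2 * p - 1) * Nat.card V ≤ m) (he : Even m) :
    TotalLabeling (blowUp G m) p (r * m + 2 * p - 1) := by
  classical
  have := Fintype.ofFinite V
  obtain ⟨h, hh⟩ := he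
  rcases isEmpty_or_nonempty V with hV | hV
  · exact tl_empty (fun x => hV.elim x.1) _ _
  obtain ⟨σ0, hσ0⟩ := exists_perm hr hreg
  rw [Nat.card_eq_fintype_card] at hm
  obtain ⟨n, hn⟩ : ∃ n, n = Fintype.card V := ⟨_, rfl⟩
  obtain ⟨t, ht⟩ : ∃ t, t = 2 * p - 1 := ⟨_, rfl⟩
  rw [← hn, ← ht] at hm
  have o : V ≃ Fin n := Fintype.equivFinOfCardEq hn.symm
  have hn2 : 2 ≤ n := by
    have hv := Classical.arbitrary V
    have h1 := (hσ0 hv).ne
    rw [hn]
    exact Fintype.one_lt_card_iff.2 ⟨_, _, h1⟩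
  have ht1 : 1 ≤ t := by omega
  have hq2 : 2 * p ≤ t * n := by
    have h1 : t * 2 ≤ t * n := Nat.mul_le_mul_left t hn2
    omega
  have hrm : m ≤ r * m := Nat.le_mul_of_pos_left m hr
  -- the 2-colouring of the bipartite components
  let rep : V → V := fun u => Quot.out (G.connectedComponentMk u)
  have hrep : ∀ u, G.Reachable (rep u) u := fun u =>
    ConnectedComponent.exact (Quot.out_eq (G.connectedComponentMk u))
  have hrep2 : ∀ u w, G.Adj u w → rep u = rep w := by
    intro u w h1
    show Quot.out (G.connectedComponentMk u) = Quot.out (G.connectedComponentMk w)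
    rw [ConnectedComponent.sound h1.reachable]
  let φ : V → Bool := fun u => if hb : Bip G (rep u) then Classical.choose hb u else true
  have hφ : ∀ u w, G.Adj u w → Bip G u → φ u ≠ φ w := by
    intro u w h1 h2
    have h3 : Bip G (rep u) := bip_reach (hrep u).symm h2
    have h4 : φ u = Classical.choose h3 u := dif_pos h3
    have h5 : φ w = Classical.choose h3 w := by
      have h6 : ∀ (x : V) (hx : x = rep w) (hb : Bip G x), φ w = Classical.choose hb w := by
        rintro x rfl hb
        exact dif_pos hb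
      exact h6 (rep u) (hrep2 u w h1) h3
    rw [h4, h5]
    exact Classical.choose_spec h3 u w (hrep u) h1
  have hadjb : ∀ u w, G.Adj u w → (Bip G u ↔ Bip G w) := fun u w h1 =>
    ⟨bip_reach h1.reachable, bip_reach h1.reachable.symm⟩
  -- the permutations
  have hτ : ∀ v, ∃ τ : Equiv.Perm V, (¬ Bip G v → τ v = v) ∧
      ∀ u, (Bip G v ∨ u ≠ v) → G.Adj u (τ u) := by
    intro v
    by_cases hb : Bip G v
    · exact ⟨σ0, fun h => absurd hb h, fun u _ => hσ0 u⟩
    · obtain ⟨τ, h1, h2⟩ := avoid hreg v hb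
      exact ⟨τ, fun _ => h1, fun u hu => h2 u (hu.resolve_left hb)⟩
  choose τ hτ1 hτ2 using hτ
  have hlt : ∀ c : Fin (t * n), (c : ℕ) / t < n := fun c => Nat.div_lt_of_lt_mul c.2
  let blk : Fin (t * n) → V := fun c => o.symm ⟨(c : ℕ) / t, hlt c⟩
  have hblk : ∀ c u, blk c = u ↔ (c : ℕ) / t = o u := by
    intro c u
    constructor
    · intro h1
      rw [← h1]
      show _ = ((o (o.symm ⟨(c : ℕ) / t, hlt c⟩) : Fin n) : ℕ)
      rw [Equiv.apply_symm_apply]
    · intro h1
      show o.symm ⟨(c : ℕ) / t, hlt c⟩ = u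
      rw [Equiv.symm_apply_eq]
      exact Fin.ext h1
  let P : Fin (t * n) → Set V := fun c => {u | (¬ Bip G u ∧ u ≠ blk c) ∨ (Bip G u ∧ 2 * p ≤ (c : ℕ))}
  have hP : ∀ c u, u ∈ P c ↔ ((¬ Bip G u ∧ u ≠ blk c) ∨ (Bip G u ∧ 2 * p ≤ (c : ℕ))) :=
    fun c u => Iff.rfl
  have hmove : ∀ c u, u ∈ P c → G.Adj u (τ (blk c) u) := by
    intro c u hu
    refine hτ2 _ _ ?_
    rcases (hP c u).1 hu with ⟨h1, h2⟩ | ⟨h1, h2⟩
    · exact Or.inr h2
    · by_cases h3 : Bip G (blk c)
      · exact Or.inl h3
      · exact Or.inr (fun h4 => h3 (h4 ▸ h1))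
  -- the counts
  have hc1 : ∀ u, t * n - t ≤ {c : Fin (t * n) | u ≠ blk c}.ncard := by
    intro u
    have h1 := Set.ncard_add_ncard_compl {c : Fin (t * n) | blk c = u}
    rw [Nat.card_eq_fintype_card, Fintype.card_fin] at h1
    have h2 : {c : Fin (t * n) | blk c = u}ᶜ = {c | u ≠ blk c} := by
      ext c
      exact ⟨fun h3 h4 => h3 h4.symm, fun h3 h4 => h3 h4.symm⟩
    have h3 : {c : Fin (t * n) | blk c = u}.ncard ≤ t := by
      have h4 : {c : Fin (t * n) | blk c = u}.ncard ≤ (Set.Iio t).ncard := by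
        refine Set.ncard_le_ncard_of_injOn (fun c => (c : ℕ) % t) ?_ ?_ (Set.toFinite _)
        · intro c _
          exact Nat.mod_lt _ ht1
        · intro c hc c' hc' h5
          have h6 := (hblk c u).1 hc
          have h7 := (hblk c' u).1 hc'
          refine Fin.ext ?_
          rw [← Nat.div_add_mod (c : ℕ) t, ← Nat.div_add_mod (c' : ℕ) t, h6, h7]
          have h8 : (c : ℕ) % t = (c' : ℕ) % t := h5
          rw [h8]
      refine h4.trans (le_of_eq ?_)
      rw [Set.ncard_eq_toFinset_card', Set.toFinset_Iio, Nat.card_Iio]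
    rw [h2] at h1
    omega
  have hc2 : t * n - 2 * p ≤ {c : Fin (t * n) | 2 * p ≤ (c : ℕ)}.ncard := by
    have h1 := Set.ncard_add_ncard_compl {c : Fin (t * n) | 2 * p ≤ (c : ℕ)}
    rw [Nat.card_eq_fintype_card, Fintype.card_fin] at h1
    have h3 : {c : Fin (t * n) | 2 * p ≤ (c : ℕ)}ᶜ.ncard ≤ 2 * p := by
      have h4 : {c : Fin (t * n) | 2 * p ≤ (c : ℕ)}ᶜ.ncard ≤ (Set.Iio (2 * p)).ncard := by
        refine Set.ncard_le_ncard_of_injOn (fun c => (c : ℕ)) ?_ ?_ (Set.toFinite _)
        · intro c hc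
          have hc' : ¬ 2 * p ≤ (c : ℕ) := hc
          exact not_le.1 hc'
        · intro c _ c' _ h5
          exact Fin.ext h5
      refine h4.trans (le_of_eq ?_)
      rw [Set.ncard_eq_toFinset_card', Set.toFinset_Iio, Nat.card_Iio]
    omega
  have hout : ∀ u, r * m ≤ (r * m + 2 * p - t * n) + {c | u ∈ P c}.ncard := by
    intro u
    by_cases hb : Bip G u
    · have h1 : {c | u ∈ P c} = {c : Fin (t * n) | 2 * p ≤ (c : ℕ)} := by
        ext c
        rw [Set.mem_ofPred_eq, hP, Set.mem_ofPred_eq]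
        exact ⟨fun h2 => h2.elim (fun h3 => absurd hb h3.1) (fun h3 => h3.2), fun h2 =>
          Or.inr ⟨hb, h2⟩⟩
      rw [h1]
      omega
    · have h1 : {c | u ∈ P c} = {c : Fin (t * n) | u ≠ blk c} := by
        ext c
        rw [Set.mem_ofPred_eq, hP, Set.mem_ofPred_eq]
        exact ⟨fun h2 => h2.elim (fun h3 => h3.2) (fun h3 => absurd h3.1 hb), fun h2 =>
          Or.inl ⟨hb, h2⟩⟩
      rw [h1]
      have := hc1 u
      omega
  have hback : ∀ c u, u ∈ P c ↔ (τ (blk c)).symm u ∈ P c := by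
    intro c u
    obtain ⟨w, hw⟩ : ∃ w, w = (τ (blk c)).symm u := ⟨_, rfl⟩
    have hwu : τ (blk c) w = u := by rw [hw, Equiv.apply_symm_apply]
    rw [← hw]
    by_cases hbc : Bip G (blk c)
    · have h1 : G.Adj w u := by
        rw [← hwu]
        exact hτ2 _ _ (Or.inl hbc)
      have h2 := hadjb w u h1
      rw [hP, hP, h2]
      constructor
      · rintro (⟨h3, -⟩ | h3)
        · refine Or.inl ⟨h3, fun h4 => ?_⟩
          rw [← h2, h4] at h3
          exact h3 hbc
        · exact Or.inr h3
      · rintro (⟨h3, -⟩ | h3)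
        · exact Or.inl ⟨h3, fun h4 => h3 (h4 ▸ hbc)⟩
        · exact Or.inr h3
    · by_cases hub : u = blk c
      · have h1 : w = blk c := by
          rw [hub] at hwu
          have h2 := hτ1 _ hbc
          exact (τ (blk c)).injective (hwu.trans h2.symm)
        rw [h1, hub]
      · have hwb : w ≠ blk c := by
          intro h1
          rw [h1, hτ1 _ hbc] at hwu
          exact hub hwu.symm
        have h1 : G.Adj w u := by
          rw [← hwu]
          exact hτ2 _ _ (Or.inr hwb)
        have h2 := hadjb w u h1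
        rw [hP, hP, h2]
        constructor
        · rintro (⟨h3, -⟩ | h3)
          · exact Or.inl ⟨h3, hwb⟩
          · exact Or.inr h3
        · rintro (⟨h3, -⟩ | h3)
          · exact Or.inl ⟨h3, hub⟩
          · exact Or.inr h3
  -- the labels
  let fV : V → ℕ := fun u => if Bip G u then (if φ u = true then p - 1 else p) else
    t * (o u : ℕ) + (p - 1)
  have hfb : ∀ u, Bip G u → fV u ≤ p := by
    intro u hu
    simp only [fV]
    rw [if_pos hu]
    split_ifs <;> omega
  have hfn : ∀ u, ¬ Bip G u → fV u = t * (o u : ℕ) + (p - 1) := fun u hu => if_neg hu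
  have hfn2 : ∀ u, ¬ Bip G u → fV u + p ≤ t * n := by
    intro u hu
    rw [hfn u hu]
    have h1 : t * ((o u : ℕ) + 1) ≤ t * n := Nat.mul_le_mul_left t (o u).2
    rw [mul_add, mul_one] at h1
    omega
  have hfV : ∀ u, fV u + p ≤ t * n := by
    intro u
    by_cases hu : Bip G u
    · have := hfb u hu
      omega
    · exact hfn2 u hu
  have hnear : ∀ c u, u ∈ P c → (p : ℤ) ≤ |(fV u : ℤ) - ((c : ℕ) : ℤ)| := by
    intro c u hu
    rcases (hP c u).1 hu with ⟨h1, h2⟩ | ⟨h1, h2⟩
    · rw [hfn u h1]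
      have h3 : (o u : ℕ) ≠ (c : ℕ) / t := fun h4 => h2 ((hblk c u).2 h4.symm).symm
      have h4 := block_dist (s := (c : ℕ) % t) hp (by rw [← ht]; exact Nat.mod_lt _ ht1) h3
      rw [← ht, Nat.div_add_mod] at h4
      exact h4
    · have h3 := hfb u h1
      rw [abs_sub_comm]
      refine le_trans ?_ (le_abs_self _)
      omega
  refine tl_of (q := t * n) (N := r * m + 2 * p - t * n) (h := h) (by omega) (by omega) hreg hm
    (fun c => τ (blk c)) P hmove hout (fun u => ?_) fV
    (Sum.elim (fun c => (c : ℕ)) (fun j => t * n + (j : ℕ))) ?_ ?_ ?_ ?_ ?_ ?_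
  · refine (hout u).trans (le_of_eq ?_)
    congr 1
    congr 1
    ext c
    exact hback c u
  · rintro (a | a) (b | b) h1
    · exact congrArg Sum.inl (Fin.ext h1)
    · exfalso
      have h2 : (a : ℕ) = t * n + b := h1
      have := a.2
      omega
    · exfalso
      have h2 : t * n + (a : ℕ) = b := h1
      have := b.2
      omega
    · have h2 : t * n + (a : ℕ) = t * n + b := h1
      exact congrArg Sum.inr (Fin.ext (by omega))
  · intro v
    have := hfV v
    omega
  · rintro (a | a)
    · show (a : ℕ) ≤ _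
      have := a.2
      omega
    · show t * n + (a : ℕ) ≤ _
      have := a.2
      omega
  · intro u w huw h1
    by_cases hu : Bip G u
    · have hw := (hadjb u w huw).1 hu
      have h2 := hφ u w huw hu
      simp only [fV] at h1
      rw [if_pos hu, if_pos hw] at h1
      cases hu' : φ u <;> cases hw' : φ w <;> rw [hu', hw'] at h1 h2
      · exact h2 rfl
      · simp at h1
        omega
      · simp at h1
        omega
      · exact h2 rfl
    · have hw : ¬ Bip G w := fun h2 => hu ((hadjb u w huw).2 h2)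
      rw [hfn u hu, hfn w hw] at h1
      have h2 : t * (o u : ℕ) = t * (o w : ℕ) := by omega
      have h3 := Nat.eq_of_mul_eq_mul_left ht1 h2
      exact huw.ne (o.injective (Fin.ext h3))
  · intro c u hu
    refine ⟨hnear c u hu, ?_⟩
    refine hnear c _ ?_
    rw [hback]
    show (τ (blk c)).symm (τ (blk c) u) ∈ P c
    rw [Equiv.symm_apply_apply]
    exact hu
  · intro u j
    show (p : ℤ) ≤ |(fV u : ℤ) - ((t * n + (j : ℕ) : ℕ) : ℤ)|
    rw [abs_sub_comm]
    refine le_trans ?_ (le_abs_self _)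
    have := hfV u
    omega

end Pool.Agent.Q251.TC
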