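import Pool.Agent.Q251.TC.Det

/-!
# Proper edge colourings of blow-ups from outlines
-/

set_option autoImplicit false

namespace Pool.Agent.Q251.TC

open Finset SimpleGraph

/-- The arcs of the amalgamated graph: `m h` arcs from `u` to `v` for every dart `(u, v)`. -/
abbrev Arc {V : Type} (G : SimpleGraph V) (m h : ℕ) : Type :=
  {p : V × V // G.Adj p.1 p.2} × (Fin m × Fin h)

section

variable {V L : Type} [Fintype V] [Fintype L] {G : SimpleGraph V} {m h : ℕ}

open Classical in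
/-- **From an outline to a proper edge colouring of the blow-up.** -/
theorem outline [Nonempty L] (hm : m = 2 * h) (col : Arc G m h → L)
    (hout : ∀ v c, (univ.filter (fun a : Arc G m h => a.1.1.1 = v ∧ col a = c)).card ≤ h)
    (hin : ∀ v c, (univ.filter (fun a : Arc G m h => a.1.1.2 = v ∧ col a = c)).card ≤ h) :
    ∃ ψ : V × Fin m → V × Fin m → L, (∀ x y, ψ x y = ψ y x) ∧
      (∀ x y z, G.Adj x.1 y.1 → G.Adj x.1 z.1 → y ≠ z → ψ x y ≠ ψ x z) ∧
      ∀ x y, G.Adj x.1 y.1 → ∃ a : Arc G m h, ((a.1.1.1 = x.1 ∧ a.1.1.2 = y.1) ∨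
        (a.1.1.1 = y.1 ∧ a.1.1.2 = x.1)) ∧ col a = ψ x y := by
  let D : Type := Arc G m h × Bool
  let ι : D → D := fun d => (d.1, !d.2)
  let b : D → V := fun d => if d.2 = true then d.1.1.1.1 else d.1.1.1.2
  let cl : D → L := fun d => col d.1
  have hι : ∀ d, ι (ι d) = d := by
    rintro ⟨a, e⟩
    show (a, !!e) = (a, e)
    rw [Bool.not_not]
  have hG : ∀ d, G.Adj (b d) (b (ι d)) := by
    rintro ⟨a, e⟩
    cases e
    · exact a.1.2.symm
    · exact a.1.2
  have hcnt : ∀ u v, G.Adj u v →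
      (univ.filter (fun d => b d = u ∧ b (ι d) = v)).card = m * m := by
    intro u v huv
    have h1 : (univ : Finset (Bool × (Fin m × Fin h))).card = m * m := by
      rw [card_univ, Fintype.card_prod, Fintype.card_bool, Fintype.card_prod, Fintype.card_fin,
        Fintype.card_fin]
      nth_rewrite 3 [hm]
      ring
    rw [← h1]
    refine card_bij (fun d _ => (d.2, d.1.2)) (fun _ _ => mem_univ _) ?_ ?_
    · rintro ⟨a, e⟩ hd ⟨a', e'⟩ hd' h2
      obtain ⟨-, h3, h4⟩ := mem_filter.1 hd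
      obtain ⟨-, h5, h6⟩ := mem_filter.1 hd'
      have h7 : e = e' ∧ a.2 = a'.2 := Prod.ext_iff.1 h2
      obtain ⟨rfl, h8⟩ := h7
      have h9 : a.1 = a'.1 := by
        cases e
        · exact Subtype.ext (Prod.ext (h4.trans h6.symm) (h3.trans h5.symm))
        · exact Subtype.ext (Prod.ext (h3.trans h5.symm) (h4.trans h6.symm))
      exact Prod.ext (Prod.ext h9 h8) rfl
    · rintro ⟨e, xy⟩ _
      cases e
      · exact ⟨((⟨(v, u), huv.symm⟩, xy), false), mem_filter.2 ⟨mem_univ _, rfl, rfl⟩, rfl⟩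
      · exact ⟨((⟨(u, v), huv⟩, xy), true), mem_filter.2 ⟨mem_univ _, rfl, rfl⟩, rfl⟩
  have hdeg : ∀ u c, (univ.filter (fun d => b d = u ∧ cl d = c)).card ≤ m := by
    intro u c
    have h1 : univ.filter (fun d => b d = u ∧ cl d = c) ⊆
        (univ.filter (fun a : Arc G m h => a.1.1.1 = u ∧ col a = c)).image (fun a => (a, true)) ∪
        (univ.filter (fun a : Arc G m h => a.1.1.2 = u ∧ col a = c)).image
          (fun a => (a, false)) := by
      rintro ⟨a, e⟩ hd
      obtain ⟨-, h2, h3⟩ := mem_filter.1 hd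
      cases e
      · exact mem_union_right _ (mem_image.2 ⟨a, mem_filter.2 ⟨mem_univ _, h2, h3⟩, rfl⟩)
      · exact mem_union_left _ (mem_image.2 ⟨a, mem_filter.2 ⟨mem_univ _, h2, h3⟩, rfl⟩)
    refine (card_le_card h1).trans ((card_union_le _ _).trans ?_)
    refine (add_le_add (card_image_le.trans (hout u c)) (card_image_le.trans (hin u c))).trans ?_
    omega
  obtain ⟨ψ, h1, h2, h3⟩ := det (m := m) hι hG (fun _ => rfl) hcnt hdeg
  refine ⟨ψ, h1, h2, ?_⟩
  intro x y hxy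
  obtain ⟨⟨a, e⟩, h4, h5, h6⟩ := h3 x y hxy
  cases e
  · exact ⟨a, Or.inr ⟨h5, h4⟩, h6⟩
  · exact ⟨a, Or.inl ⟨h4, h5⟩, h6⟩

open Classical in
/-- **Outlines.** For the special colours `c < q` there are permutations along edges. -/
theorem init {r q N : ℕ} (hreg : ∀ v, (G.neighborSet v).ncard = r) (hq : q ≤ m)
    (σ : Fin q → Equiv.Perm V) (P : Fin q → Set V) (hσ : ∀ c u, u ∈ P c → G.Adj u (σ c u))
    (hout : ∀ u, r * m ≤ N + (univ.filter (fun c => u ∈ P c)).card)
    (hin : ∀ u, r * m ≤ N + (univ.filter (fun c => (σ c).symm u ∈ P c)).card) :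
    ∃ col : Arc G m h → Fin q ⊕ Fin N,
      (∀ v c, (univ.filter (fun a : Arc G m h => a.1.1.1 = v ∧ col a = c)).card ≤ h) ∧
      (∀ v c, (univ.filter (fun a : Arc G m h => a.1.1.2 = v ∧ col a = c)).card ≤ h) ∧
      ∀ a c, col a = Sum.inl c → a.1.1.1 ∈ P c ∧ a.1.1.2 = σ c a.1.1.1 := by
  -- special arcs
  let sp : Arc G m h → Prop := fun a => ∃ c : Fin q, (c : ℕ) = (a.2.1 : ℕ) ∧ a.1.1.1 ∈ P c ∧
    a.1.1.2 = σ c a.1.1.1
  have hdeg : ∀ v, (univ.filter (fun u => G.Adj v u)).card = r := by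
    intro v
    rw [← hreg v]
    have h5 : G.neighborSet v = ((univ.filter (fun u => G.Adj v u) : Finset V) : Set V) := by
      ext u
      simp
    rw [h5, Set.ncard_coe_finset]
  have htail : ∀ v, (univ.filter (fun a : Arc G m h => a.1.1.1 = v)).card = h * (r * m) := by
    intro v
    have h1 : ((univ.filter (fun u => G.Adj v u)) ×ˢ (univ : Finset (Fin m × Fin h))).card =
        h * (r * m) := by
      rw [card_product, hdeg, card_univ, Fintype.card_prod, Fintype.card_fin, Fintype.card_fin]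
      ring
    rw [← h1]
    refine card_bij (fun a _ => (a.1.1.2, a.2)) ?_ ?_ ?_
    · intro a ha
      have h2 := (mem_filter.1 ha).2
      refine mem_product.2 ⟨mem_filter.2 ⟨mem_univ _, ?_⟩, mem_univ _⟩
      rw [← h2]
      exact a.1.2
    · intro a ha a' ha' h2
      have h3 : a.1.1.2 = a'.1.1.2 ∧ a.2 = a'.2 := Prod.ext_iff.1 h2
      have h4 := (mem_filter.1 ha).2
      have h5 := (mem_filter.1 ha').2
      exact Prod.ext (Subtype.ext (Prod.ext (h4.trans h5.symm) h3.1)) h3.2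
    · rintro ⟨u, xy⟩ hu
      have h2 := (mem_filter.1 (mem_product.1 hu).1).2
      exact ⟨(⟨(v, u), h2⟩, xy), mem_filter.2 ⟨mem_univ _, rfl⟩, rfl⟩
  have hhead : ∀ v, (univ.filter (fun a : Arc G m h => a.1.1.2 = v)).card = h * (r * m) := by
    intro v
    rw [← htail v]
    refine card_bij (fun a _ => (⟨(a.1.1.2, a.1.1.1), a.1.2.symm⟩, a.2)) ?_ ?_ ?_
    · intro a ha
      exact mem_filter.2 ⟨mem_univ _, (mem_filter.1 ha).2⟩
    · intro a _ a' _ h2
      have h3 := Prod.ext_iff.1 h2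
      have h4 : (a.1.1.2, a.1.1.1) = (a'.1.1.2, a'.1.1.1) := congrArg Subtype.val h3.1
      have h5 := Prod.ext_iff.1 h4
      exact Prod.ext (Subtype.ext (Prod.ext h5.2 h5.1)) h3.2
    · intro a ha
      exact ⟨(⟨(a.1.1.2, a.1.1.1), a.1.2.symm⟩, a.2),
        mem_filter.2 ⟨mem_univ _, (mem_filter.1 ha).2⟩, rfl⟩
  -- the number of special arcs
  have hinj : Function.Injective (fun x : Fin q × Fin h => ((x.1 : ℕ), x.2)) := by
    intro x y h1
    have h2 : (x.1 : ℕ) = y.1 ∧ x.2 = y.2 := Prod.ext_iff.1 h1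
    exact Prod.ext (Fin.ext h2.1) h2.2
  have hst : ∀ v, h * (univ.filter (fun c => v ∈ P c)).card ≤
      (univ.filter (fun a : Arc G m h => a.1.1.1 = v ∧ sp a)).card := by
    intro v
    have h1 : (((univ.filter (fun c => v ∈ P c)) ×ˢ (univ : Finset (Fin h))).image
        (fun x : Fin q × Fin h => ((x.1 : ℕ), x.2))).card =
        h * (univ.filter (fun c => v ∈ P c)).card := by
      rw [card_image_of_injective _ hinj, card_product, card_univ, Fintype.card_fin, mul_comm]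
    rw [← h1]
    refine card_le_card_of_surjOn (fun a => ((a.2.1 : ℕ), a.2.2)) ?_
    intro x hx
    obtain ⟨⟨c, y⟩, h2, rfl⟩ := mem_image.1 (mem_coe.1 hx)
    have h3 : v ∈ P c := (mem_filter.1 (mem_product.1 h2).1).2
    exact ⟨(⟨(v, σ c v), hσ c v h3⟩, (⟨c, lt_of_lt_of_le c.2 hq⟩, y)),
      mem_coe.2 (mem_filter.2 ⟨mem_univ _, rfl, c, rfl, h3, rfl⟩), rfl⟩
  have hsh : ∀ v, h * (univ.filter (fun c => (σ c).symm v ∈ P c)).card ≤
      (univ.filter (fun a : Arc G m h => a.1.1.2 = v ∧ sp a)).card := by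
    intro v
    have h1 : (((univ.filter (fun c => (σ c).symm v ∈ P c)) ×ˢ (univ : Finset (Fin h))).image
        (fun x : Fin q × Fin h => ((x.1 : ℕ), x.2))).card =
        h * (univ.filter (fun c => (σ c).symm v ∈ P c)).card := by
      rw [card_image_of_injective _ hinj, card_product, card_univ, Fintype.card_fin, mul_comm]
    rw [← h1]
    refine card_le_card_of_surjOn (fun a => ((a.2.1 : ℕ), a.2.2)) ?_
    intro x hx
    obtain ⟨⟨c, y⟩, h2, rfl⟩ := mem_image.1 (mem_coe.1 hx)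
    have h3 : (σ c).symm v ∈ P c := (mem_filter.1 (mem_product.1 h2).1).2
    exact ⟨(⟨((σ c).symm v, σ c ((σ c).symm v)), hσ c _ h3⟩, (⟨c, lt_of_lt_of_le c.2 hq⟩, y)),
      mem_coe.2 (mem_filter.2 ⟨mem_univ _, Equiv.apply_symm_apply _ _, c, rfl, h3, rfl⟩), rfl⟩
  -- the other arcs
  have hsplit : ∀ p : Arc G m h → Prop, (univ.filter (fun s : {a // ¬ sp a} => p s.1)).card +
      (univ.filter (fun a => p a ∧ sp a)).card = (univ.filter (fun a => p a)).card := by
    intro p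
    rw [← card_filter_add_card_filter_not (s := univ.filter (fun a => p a)) (fun a => sp a),
      filter_filter, filter_filter, add_comm]
    congr 1
    refine card_bij (fun s _ => s.1) ?_ ?_ ?_
    · intro s hs
      exact mem_filter.2 ⟨mem_univ _, (mem_filter.1 hs).2, s.2⟩
    · intro s _ s' _ h1
      exact Subtype.ext h1
    · intro a ha
      obtain ⟨-, h1, h2⟩ := mem_filter.1 ha
      exact ⟨⟨a, h2⟩, mem_filter.2 ⟨mem_univ _, h1⟩, rfl⟩
  obtain ⟨κ, hκ⟩ := eqc (fun s : {a : Arc G m h // ¬ sp a} => s.1.1.1.1)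
    (fun s : {a : Arc G m h // ¬ sp a} => s.1.1.1.2) h N
    (by
      intro v
      have h1 := hsplit (fun a => a.1.1.1 = v)
      have h2 := hst v
      have h3 := htail v
      have h4 := Nat.mul_le_mul_left h (hout v)
      rw [mul_add] at h4
      omega)
    (by
      intro v
      have h1 := hsplit (fun a => a.1.1.2 = v)
      have h2 := hsh v
      have h3 := hhead v
      have h4 := Nat.mul_le_mul_left h (hin v)
      rw [mul_add] at h4
      omega)
  let col : Arc G m h → Fin q ⊕ Fin N := fun a =>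
    if hs : sp a then Sum.inl (Classical.choose hs) else Sum.inr (κ ⟨a, hs⟩)
  have hcl : ∀ a c, col a = Sum.inl c → (c : ℕ) = (a.2.1 : ℕ) ∧ a.1.1.1 ∈ P c ∧
      a.1.1.2 = σ c a.1.1.1 := by
    intro a c h1
    by_cases hs : sp a
    · have h2 : col a = Sum.inl (Classical.choose hs) := dif_pos hs
      rw [h2] at h1
      rw [← Sum.inl.inj h1]
      exact Classical.choose_spec hs
    · have h2 : col a = Sum.inr (κ ⟨a, hs⟩) := dif_neg hs
      rw [h2] at h1
      exact absurd h1 (by simp)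
  have hcr : ∀ a c, col a = Sum.inr c → ∃ hs : ¬ sp a, κ ⟨a, hs⟩ = c := by
    intro a c h1
    by_cases hs : sp a
    · have h2 : col a = Sum.inl (Classical.choose hs) := dif_pos hs
      rw [h2] at h1
      exact absurd h1 (by simp)
    · have h2 : col a = Sum.inr (κ ⟨a, hs⟩) := dif_neg hs
      rw [h2] at h1
      exact ⟨hs, Sum.inr.inj h1⟩
  have hh : (univ : Finset (Fin h)).card = h := by rw [card_univ, Fintype.card_fin]
  refine ⟨col, ?_, ?_, fun a c h1 => (hcl a c h1).2⟩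
  · rintro v (c | c)
    · refine le_trans (card_le_card_of_injOn (t := (univ : Finset (Fin h))) (fun a => a.2.2)
        (fun _ _ => mem_coe.2 (mem_univ _)) ?_) (le_of_eq hh)
      intro a ha a' ha' h1
      rw [mem_coe, mem_filter] at ha ha'
      obtain ⟨h2, h3, h4⟩ := hcl a c ha.2.2
      obtain ⟨h5, h6, h7⟩ := hcl a' c ha'.2.2
      have h8 : a.1.1.1 = a'.1.1.1 := ha.2.1.trans ha'.2.1.symm
      refine Prod.ext (Subtype.ext (Prod.ext h8 ?_)) (Prod.ext (Fin.ext (h2.symm.trans h5)) h1)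
      rw [h4, h7, h8]
    · refine le_trans ?_ (hκ v c).1
      refine le_trans (card_le_card (t := (univ.filter (fun s : {a : Arc G m h // ¬ sp a} =>
        s.1.1.1.1 = v ∧ κ s = c)).image (fun s => s.1)) ?_) card_image_le
      intro a ha
      obtain ⟨-, h1, h2⟩ := mem_filter.1 ha
      obtain ⟨hs, h3⟩ := hcr a c h2
      exact mem_image.2 ⟨⟨a, hs⟩, mem_filter.2 ⟨mem_univ _, h1, h3⟩, rfl⟩
  · rintro v (c | c)
    · refine le_trans (card_le_card_of_injOn (t := (univ : Finset (Fin h))) (fun a => a.2.2)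
        (fun _ _ => mem_coe.2 (mem_univ _)) ?_) (le_of_eq hh)
      intro a ha a' ha' h1
      rw [mem_coe, mem_filter] at ha ha'
      obtain ⟨h2, h3, h4⟩ := hcl a c ha.2.2
      obtain ⟨h5, h6, h7⟩ := hcl a' c ha'.2.2
      have h8 : a.1.1.2 = a'.1.1.2 := ha.2.1.trans ha'.2.1.symm
      refine Prod.ext (Subtype.ext (Prod.ext ?_ h8)) (Prod.ext (Fin.ext (h2.symm.trans h5)) h1)
      rw [h4, h7] at h8
      exact (σ c).injective h8
    · refine le_trans ?_ (hκ v c).2
      refine le_trans (card_le_card (t := (univ.filter (fun s : {a : Arc G m h // ¬ sp a} =>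
        s.1.1.1.2 = v ∧ κ s = c)).image (fun s => s.1)) ?_) card_image_le
      intro a ha
      obtain ⟨-, h1, h2⟩ := mem_filter.1 ha
      obtain ⟨hs, h3⟩ := hcr a c h2
      exact mem_image.2 ⟨⟨a, hs⟩, mem_filter.2 ⟨mem_univ _, h1, h3⟩, rfl⟩

/-- **Proper edge colourings of even blow-ups of regular graphs with prescribed special colours.** -/
theorem lab {r q N : ℕ} (hL : 0 < q + N) (hm : m = 2 * h)
    (hreg : ∀ v, (G.neighborSet v).ncard = r) (hq : q ≤ m)
    (σ : Fin q → Equiv.Perm V) (P : Fin q → Set V) (hσ : ∀ c u, u ∈ P c → G.Adj u (σ c u))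
    (hout : ∀ u, r * m ≤ N + {c | u ∈ P c}.ncard)
    (hin : ∀ u, r * m ≤ N + {c | (σ c).symm u ∈ P c}.ncard) :
    ∃ ψ : V × Fin m → V × Fin m → Fin q ⊕ Fin N, (∀ x y, ψ x y = ψ y x) ∧
      (∀ x y z, G.Adj x.1 y.1 → G.Adj x.1 z.1 → y ≠ z → ψ x y ≠ ψ x z) ∧
      ∀ x y c, G.Adj x.1 y.1 → ψ x y = Sum.inl c → (x.1 ∈ P c ∧ y.1 = σ c x.1) ∨
        (y.1 ∈ P c ∧ x.1 = σ c y.1) := by
  classical
  have hne : Nonempty (Fin q ⊕ Fin N) := by
    rcases Nat.eq_zero_or_pos q with h0 | h0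
    · exact ⟨Sum.inr ⟨0, by omega⟩⟩
    · exact ⟨Sum.inl ⟨0, h0⟩⟩
  have e1 : ∀ u, (univ.filter (fun c => u ∈ P c)).card = {c | u ∈ P c}.ncard := by
    intro u
    rw [← Set.ncard_coe_finset]
    congr 1
    ext c
    simp
  have e2 : ∀ u, (univ.filter (fun c => (σ c).symm u ∈ P c)).card =
      {c | (σ c).symm u ∈ P c}.ncard := by
    intro u
    rw [← Set.ncard_coe_finset]
    congr 1
    ext c
    simp
  obtain ⟨col, h1, h2, h3⟩ := init (m := m) (h := h) hreg hq σ P hσ
    (fun u => by rw [e1]; exact hout u) (fun u => by rw [e2]; exact hin u)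
  obtain ⟨ψ, h4, h5, h6⟩ := outline hm col (fun v c => by convert h1 v c)
    (fun v c => by convert h2 v c)
  refine ⟨ψ, h4, h5, ?_⟩
  intro x y c hxy hc
  obtain ⟨a, h7, h8⟩ := h6 x y hxy
  rw [hc] at h8
  obtain ⟨h9, h10⟩ := h3 a c h8
  rcases h7 with ⟨h11, h12⟩ | ⟨h11, h12⟩
  · left
    rw [← h11, ← h12]
    exact ⟨h9, h10⟩
  · right
    rw [← h11, ← h12]
    exact ⟨h9, h10⟩

end

end Pool.Agent.Q251.TC
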