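import Pool.Agent.Q251.TC.Out
import Pool.Agent.TH525.LAD.Reg

/-!
# Total labellings of even blow-ups
-/

set_option autoImplicit false

namespace Pool.Agent.Q251.TC

open Finset SimpleGraph

/-- A `(p,1)`-total labeling of `G` of span `l`. -/
def TotalLabeling {V : Type} (G : SimpleGraph V) (p l : ℕ) : Prop :=
  ∃ (fV : V → ℕ) (fE : Sym2 V → ℕ),
    (∀ v, fV v ≤ l) ∧ (∀ e ∈ G.edgeSet, fE e ≤ l) ∧
    (∀ u v, G.Adj u v → fV u ≠ fV v) ∧
    (∀ u v w, G.Adj u v → G.Adj u w → v ≠ w → fE s(u, v) ≠ fE s(u, w)) ∧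
    (∀ u v, G.Adj u v → (p : ℤ) ≤ |(fV u : ℤ) - (fE s(u, v) : ℤ)|)

/-- The blow-up. -/
def blowUp {V : Type} (G : SimpleGraph V) (m : ℕ) : SimpleGraph (V × Fin m) := G.comap Prod.fst

theorem tl_of {V : Type} [Fintype V] {G : SimpleGraph V} {m h r q N p l : ℕ} (hL : 0 < q + N)
    (hm : m = 2 * h) (hreg : ∀ v, (G.neighborSet v).ncard = r) (hq : q ≤ m)
    (σ : Fin q → Equiv.Perm V) (P : Fin q → Set V) (hσ : ∀ c u, u ∈ P c → G.Adj u (σ c u))
    (hout : ∀ u, r * m ≤ N + {c | u ∈ P c}.ncard)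
    (hin : ∀ u, r * m ≤ N + {c | (σ c).symm u ∈ P c}.ncard) (fV : V → ℕ)
    (lb : Fin q ⊕ Fin N → ℕ) (hlb : Function.Injective lb) (hV : ∀ v, fV v ≤ l)
    (hE : ∀ c, lb c ≤ l) (hprop : ∀ u v, G.Adj u v → fV u ≠ fV v)
    (hsp : ∀ c u, u ∈ P c → (p : ℤ) ≤ |(fV u : ℤ) - (lb (Sum.inl c) : ℤ)| ∧
      (p : ℤ) ≤ |(fV (σ c u) : ℤ) - (lb (Sum.inl c) : ℤ)|)
    (hge : ∀ u j, (p : ℤ) ≤ |(fV u : ℤ) - (lb (Sum.inr j) : ℤ)|) :
    TotalLabeling (blowUp G m) p l := by
  obtain ⟨ψ, h1, h2, h3⟩ := lab hL hm hreg hq σ P hσ hout hin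
  let fE : Sym2 (V × Fin m) → ℕ := Sym2.lift ⟨fun x y => lb (ψ x y), fun x y => by
    show lb (ψ x y) = lb (ψ y x)
    rw [h1]⟩
  have hfE : ∀ x y, fE s(x, y) = lb (ψ x y) := fun x y => rfl
  refine ⟨fun x => fV x.1, fE, fun x => hV x.1, ?_, fun x y hxy => hprop x.1 y.1 hxy, ?_, ?_⟩
  · intro e _
    induction e using Sym2.ind with
    | _ x y => exact hE _
  · intro x y z hxy hxz hne h4
    rw [hfE, hfE] at h4
    exact h2 x y z hxy hxz hne (hlb h4)
  · intro x y hxy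
    rw [hfE]
    rcases hc : ψ x y with c | j
    · rcases h3 x y c hxy hc with ⟨h4, -⟩ | ⟨h4, h5⟩
      · exact (hsp c x.1 h4).1
      · have h6 := (hsp c y.1 h4).2
        rw [← h5] at h6
        exact h6
    · exact hge x.1 j

theorem tl_embed {V W : Type} {G : SimpleGraph V} {H : SimpleGraph W} (e : G ↪g H) (m p l : ℕ)
    (h : TotalLabeling (blowUp H m) p l) : TotalLabeling (blowUp G m) p l := by
  obtain ⟨fV, fE, h1, h2, h3, h4, h5⟩ := h
  let f : V × Fin m → W × Fin m := fun x => (e x.1, x.2)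
  have hf : Function.Injective f := by
    intro x y hxy
    have h6 := Prod.ext_iff.1 hxy
    exact Prod.ext (e.injective h6.1) h6.2
  have hadj : ∀ x y, (blowUp G m).Adj x y → (blowUp H m).Adj (f x) (f y) := by
    intro x y hxy
    exact (e.map_adj_iff).2 hxy
  refine ⟨fun x => fV (f x), fun s => fE (s.map f), fun x => h1 _, ?_, fun x y hxy =>
    h3 _ _ (hadj x y hxy), ?_, ?_⟩
  · intro s hs
    induction s using Sym2.ind with
    | _ x y =>
      refine h2 _ ?_
      rw [Sym2.map_mk]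
      exact hadj x y hs
  · intro x y z hxy hxz hne
    show fE (Sym2.map f s(x, y)) ≠ fE (Sym2.map f s(x, z))
    rw [Sym2.map_mk, Sym2.map_mk]
    exact h4 _ _ _ (hadj _ _ hxy) (hadj _ _ hxz) (fun h6 => hne (hf h6))
  · intro x y hxy
    show (p : ℤ) ≤ |(fV (f x) : ℤ) - (fE (Sym2.map f s(x, y)) : ℤ)|
    rw [Sym2.map_mk]
    exact h5 _ _ (hadj _ _ hxy)

theorem tl_empty {V : Type} {G : SimpleGraph V} (h : ∀ u v, ¬ G.Adj u v) (p l : ℕ) :
    TotalLabeling G p l := by
  refine ⟨fun _ => 0, fun _ => 0, fun _ => Nat.zero_le _, fun _ _ => Nat.zero_le _,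
    fun u v huv => absurd huv (h u v), fun u v w huv => absurd huv (h u v),
    fun u v huv => absurd huv (h u v)⟩

/-- A permutation along edges. -/
theorem exists_perm {V : Type} [Fintype V] {G : SimpleGraph V} {r : ℕ} (hr : 0 < r)
    (hreg : ∀ v, (G.neighborSet v).ncard = r) : ∃ σ : Equiv.Perm V, ∀ u, G.Adj u (σ u) := by
  classical
  have hrow : ∀ v, ∑ w, (if G.Adj v w then 1 else 0) = r := by
    intro v
    rw [← card_filter, ← hreg v]
    have h5 : G.neighborSet v = ((univ.filter (fun u => G.Adj v u) : Finset V) : Set V) := by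
      ext u
      simp
    rw [h5, Set.ncard_coe_finset]
  have hcol : ∀ w, ∑ v, (if G.Adj v w then 1 else 0) = r := by
    intro w
    rw [← hrow w]
    refine sum_congr rfl fun v _ => ?_
    by_cases h : G.Adj v w
    · rw [if_pos h, if_pos h.symm]
    · rw [if_neg h, if_neg (fun h' => h h'.symm)]
  obtain ⟨σ, hσ⟩ := Pool.Agent.H150R2.ZSF.exists_perm (fun v w => if G.Adj v w then 1 else 0) r
    hr.ne' hrow hcol
  refine ⟨σ, fun u => ?_⟩
  by_contra h
  exact hσ u (if_neg h)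

/-- Colourings of the doubled graph. -/
theorem dbl_col {V : Type} {G : SimpleGraph V} {r K : ℕ} (hK : 2 ≤ K) (h : G.Colorable K) :
    (Pool.Agent.TH525.LAD.dbl G r).Colorable K := by
  have : NeZero K := ⟨by omega⟩
  obtain ⟨φ⟩ := h
  refine ⟨SimpleGraph.Coloring.mk (fun x => if x.2 = true then φ x.1 + 1 else φ x.1) ?_⟩
  have h1 : (1 : Fin K) ≠ 0 := by
    have : Fact (1 < K) := ⟨by omega⟩
    intro h2
    have h3 := congrArg Fin.val h2
    rw [Fin.val_one', Fin.val_zero, Nat.mod_eq_of_lt (by omega)] at h3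
    exact one_ne_zero h3
  rintro ⟨u, a⟩ ⟨v, b⟩ hxy
  rcases hxy with ⟨h2, h3⟩ | ⟨h2, h3, -⟩
  · have h2' : a = b := h2
    have h4 := φ.valid h3
    subst h2'
    cases a
    · exact h4
    · intro h5
      exact h4 (add_right_cancel h5)
  · have h2' : a ≠ b := h2
    have h3' : u = v := h3
    subst h3'
    cases a <;> cases b
    · exact absurd rfl h2'
    · intro h5
      have h6 : φ u = φ u + 1 := h5
      exact h1 (by simpa using h6.symm)
    · intro h5
      have h6 : φ u + 1 = φ u := h5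
      exact h1 (by simpa using h6)
    · exact absurd rfl h2'

theorem exists_regular {r K : ℕ} (hK : 2 ≤ K) : ∀ (m : ℕ) (V : Type) [Finite V]
    (G : SimpleGraph V), G.Colorable K →
    (∀ v, (G.neighborSet v).ncard ≤ r) → (∀ v, r ≤ (G.neighborSet v).ncard + m) →
    ∃ (W : Type) (_ : Finite W) (H : SimpleGraph W), H.Colorable K ∧
      (∀ w, (H.neighborSet w).ncard = r) ∧ Nonempty (G ↪g H) := by
  intro m
  induction m with
  | zero =>
    intro V _ G hc h1 h2
    exact ⟨V, inferInstance, G, hc, fun v => le_antisymm (h1 v) (h2 v), ⟨RelEmbedding.refl _⟩⟩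
  | succ m ih =>
    intro V _ G hc h1 h2
    obtain ⟨W, hW, H, hHc, hH, ⟨e⟩⟩ := ih (V × Bool) (Pool.Agent.TH525.LAD.dbl G r)
      (dbl_col hK hc)
      (by
        intro x
        rw [Pool.Agent.TH525.LAD.dbl_deg]
        have := h1 x.1
        split_ifs with h <;> omega)
      (by
        intro x
        rw [Pool.Agent.TH525.LAD.dbl_deg]
        have := h2 x.1
        split_ifs with h <;> omega)
    refine ⟨W, hW, H, hHc, hH, ⟨RelEmbedding.trans ⟨⟨fun v => (v, false), ?_⟩, ?_⟩ e⟩⟩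
    · intro a b h
      exact (Prod.mk.inj h).1
    · intro a b
      show (Pool.Agent.TH525.LAD.dbl G r).Adj (a, false) (b, false) ↔ G.Adj a b
      simp [Pool.Agent.TH525.LAD.dbl]

/-- **Total colourings, regular case.** -/
theorem tcc_reg {V : Type} [Finite V] {G : SimpleGraph V} {r K m : ℕ} (hr : 0 < r)
    (hreg : ∀ v, (G.neighborSet v).ncard = r) (hc : G.Colorable K) (hK : K ≤ m) (he : Even m) :
    TotalLabeling (blowUp G m) 1 (r * m + 1) := by
  classical
  have := Fintype.ofFinite V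
  obtain ⟨h, hh⟩ := he
  obtain ⟨φ⟩ := hc
  rcases isEmpty_or_nonempty V with hV | hV
  · exact tl_empty (fun x => hV.elim x.1) _ _
  obtain ⟨σ, hσ⟩ := exists_perm hr hreg
  have hv := Classical.arbitrary V
  have hK0 : 0 < K := (Nat.zero_le _).trans_lt (φ hv).2
  have hrm : m ≤ r * m := Nat.le_mul_of_pos_left m hr
  have hcnt : ∀ a b : Fin K, r * m ≤ (r * m + 2 - K) + {c : Fin K | a ≠ c ∧ b ≠ c}.ncard := by
    intro a b
    have h1 := Set.ncard_add_ncard_compl ({a, b} : Set (Fin K))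
    have h2 : ({a, b} : Set (Fin K))ᶜ = {c | a ≠ c ∧ b ≠ c} := by
      ext c
      simp only [Set.mem_compl_iff, Set.mem_insert_iff, Set.mem_singleton_iff, Set.mem_ofPred_eq,
        not_or]
      exact ⟨fun h => ⟨fun h' => h.1 h'.symm, fun h' => h.2 h'.symm⟩,
        fun h => ⟨fun h' => h.1 h'.symm, fun h' => h.2 h'.symm⟩⟩
    have h3 : ({a, b} : Set (Fin K)).ncard ≤ 2 := by
      refine (Set.ncard_insert_le a {b}).trans ?_
      rw [Set.ncard_singleton]
    rw [h2, Nat.card_eq_fintype_card, Fintype.card_fin] at h1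
    omega
  refine tl_of (q := K) (N := r * m + 2 - K) (h := h) (by omega) (by omega) hreg hK
    (fun _ => σ) (fun c => {u | φ u ≠ c ∧ φ (σ u) ≠ c}) (fun c u _ => hσ u)
    (fun u => hcnt (φ u) (φ (σ u))) (fun u => ?_) (fun v => (φ v : ℕ))
    (Sum.elim (fun c => (c : ℕ)) (fun j => K + (j : ℕ))) ?_ ?_ ?_ ?_ ?_ ?_
  · have h1 := hcnt (φ (σ.symm u)) (φ u)
    refine h1.trans (le_of_eq ?_)
    congr 1
    show _ = {c | φ (σ.symm u) ≠ c ∧ φ (σ (σ.symm u)) ≠ c}.ncard
    rw [Equiv.apply_symm_apply]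
  · rintro (a | a) (b | b) h1
    · exact congrArg Sum.inl (Fin.ext h1)
    · exfalso
      have h2 : (a : ℕ) = K + b := h1
      have := a.2
      omega
    · exfalso
      have h2 : K + (a : ℕ) = b := h1
      have := b.2
      omega
    · have h2 : K + (a : ℕ) = K + b := h1
      exact congrArg Sum.inr (Fin.ext (by omega))
  · intro v
    have := (φ v).2
    omega
  · rintro (a | a)
    · show (a : ℕ) ≤ _
      have := a.2
      omega
    · show K + (a : ℕ) ≤ _
      have := a.2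
      omega
  · intro u v huv h1
    exact φ.valid huv (Fin.ext h1)
  · rintro c u ⟨h1, h2⟩
    have key : ∀ w, φ w ≠ c → ((1 : ℕ) : ℤ) ≤ |((φ w : ℕ) : ℤ) - ((c : ℕ) : ℤ)| := by
      intro w hw
      have h3 : ((φ w : ℕ) : ℤ) - ((c : ℕ) : ℤ) ≠ 0 := by
        intro h4
        refine hw (Fin.ext ?_)
        omega
      exact Int.one_le_abs h3
    exact ⟨key u h1, key (σ u) h2⟩
  · intro u j
    show ((1 : ℕ) : ℤ) ≤ |((φ u : ℕ) : ℤ) - ((K + (j : ℕ) : ℕ) : ℤ)|
    have h1 := (φ u).2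
    refine Int.one_le_abs ?_
    push_cast
    omega

/-- **Total colourings of even blow-ups.** -/
theorem tcc {V : Type} [Finite V] {G : SimpleGraph V} {D K m : ℕ}
    (hdeg : ∀ v, (G.neighborSet v).ncard ≤ D) (hc : G.Colorable K) (hK : K ≤ m) (he : Even m) :
    TotalLabeling (blowUp G m) 1 (D * m + 1) := by
  by_cases hno : ∀ u v, ¬ G.Adj u v
  · exact tl_empty (fun x y => hno x.1 y.1) _ _
  push Not at hno
  obtain ⟨u, v, huv⟩ := hno
  have hK2 : 2 ≤ K := by
    obtain ⟨φ⟩ := hc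
    have h1 := φ.valid huv
    by_contra h2
    refine h1 (Fin.ext ?_)
    have h3 := (φ u).2
    have h4 := (φ v).2
    omega
  have hD : 0 < D := by
    refine lt_of_lt_of_le ?_ (hdeg u)
    rw [Set.ncard_pos (Set.toFinite _)]
    exact ⟨v, huv⟩
  obtain ⟨W, hW, H, hHc, hH, ⟨e⟩⟩ := exists_regular hK2 D V G hc hdeg (fun v => by omega)
  exact tl_embed e m _ _ (tcc_reg hD hH hHc hK he)

end Pool.Agent.Q251.TC
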